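import Pool.Agent.helper31.GPR.Spec

/-!
# GPR (MP_7a3aac_co), row PLS: multiplication of a polynomial function by an affine function
-/

set_option autoImplicit false

namespace Pool.Agent.GPR

open Pool.Agent.helper25.QST

theorem PLS_sq (x : ZMod 2) : x * x = x := by
  revert x
  decide

/-- multiplication of a monomial by a variable -/
theorem PLS_mon {d : ℕ} (A : Finset (Fin d)) (i : Fin d) (t : Fin d → ZMod 2) :
    t i * mon d A t = mon d (insert i A) t := by
  unfold mon
  by_cases h : i ∈ A
  · rw [Finset.insert_eq_of_mem h, ← Finset.mul_prod_erase A t h, ← mul_assoc, PLS_sq]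
  · rw [Finset.prod_insert h]

theorem PLS : PLS_stmt := by
  intro d c f hf ℓ a
  have h0 : ∀ i : Fin d, ∀ A : Finset (Fin d), A.card ≤ c → mon d (insert i A) ∈ Mm d (c + 1) := by
    intro i A hA
    exact Submodule.subset_span ⟨insert i A, (Finset.card_insert_le i A).trans (by omega), rfl⟩
  unfold Mm at hf
  induction hf using Submodule.span_induction with
  | mem f hf =>
    obtain ⟨A, hA, rfl⟩ := hf
    have h1 : (fun t => (a + ℓ t) * mon d A t) =
        a • mon d A + ∑ i : Fin d, (ℓ (fun j => if i = j then 1 else 0)) • mon d (insert i A) := by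
      funext t
      rw [Pi.add_apply, Pi.smul_apply, Finset.sum_apply, add_mul, smul_eq_mul]
      congr 1
      rw [LinearMap.pi_apply_eq_sum_univ ℓ t, Finset.sum_mul]
      refine Finset.sum_congr rfl fun i _ => ?_
      rw [Pi.smul_apply, smul_eq_mul, smul_eq_mul, ← PLS_mon]
      ring
    rw [h1]
    refine Submodule.add_mem _ (Submodule.smul_mem _ _ ?_) (Submodule.sum_mem _ fun i _ => Submodule.smul_mem _ _ (h0 i A hA))
    exact Submodule.subset_span ⟨A, by omega, rfl⟩
  | zero =>
    have h1 : (fun t : Fin d → ZMod 2 => (a + ℓ t) * (0 : (Fin d → ZMod 2) → ZMod 2) t) = 0 := by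
      funext t
      rw [Pi.zero_apply, mul_zero]
    rw [h1]
    exact Submodule.zero_mem _
  | add f g _ _ hf hg =>
    have h1 : (fun t : Fin d → ZMod 2 => (a + ℓ t) * (f + g) t) =
        (fun t => (a + ℓ t) * f t) + fun t => (a + ℓ t) * g t := by
      funext t
      rw [Pi.add_apply, Pi.add_apply, mul_add]
    rw [h1]
    exact Submodule.add_mem _ hf hg
  | smul r f _ hf =>
    have h1 : (fun t : Fin d → ZMod 2 => (a + ℓ t) * (r • f) t) =
        r • fun t => (a + ℓ t) * f t := by
      funext t
      rw [Pi.smul_apply, Pi.smul_apply, smul_eq_mul, smul_eq_mul]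
      ring
    rw [h1]
    exact Submodule.smul_mem _ _ hf

end Pool.Agent.GPR
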