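import Pool.Agent.helper31.GPR.Spec

/-!
# GPR (MP_7a3aac_co), row SSC: the polynomial argument in one coset
-/

set_option autoImplicit false

namespace Pool.Agent.GPR

open Pool.Agent.helper25.QST

theorem SSC_add {V : Type} [AddCommGroup V] [Module (ZMod 2) V] (x : V) : x + x = 0 := by
  have h1 : x + x = (2 : ZMod 2) • x := by
    rw [two_smul]
  rw [h1, (by decide : (2 : ZMod 2) = 0), zero_smul]

theorem SSC (hPLS : PLS_stmt) (hPLI : PLI_stmt) : SSC_stmt := by
  classical
  intro V _ _ _ V1 T d c x0 I B hT hV hI hB hB'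
  have hφ : Module.finrank (ZMod 2) (Fin d → ZMod 2) = Module.finrank (ZMod 2) T := by
    rw [hT, Module.finrank_fin_fun]
  have hψ : Module.finrank (ZMod 2) (V ⧸ V1) = Module.finrank (ZMod 2) (Fin c → ZMod 2) := by
    rw [hV, Module.finrank_fin_fun]
  let φ : (Fin d → ZMod 2) ≃ₗ[ZMod 2] T := LinearEquiv.ofFinrankEq _ _ hφ
  let ψ : (V ⧸ V1) ≃ₗ[ZMod 2] (Fin c → ZMod 2) := LinearEquiv.ofFinrankEq _ _ hψ
  have hmem : ∀ (z : V) (s : Finset (Fin c)),
      (fun t : Fin d → ZMod 2 => ∏ j ∈ s, (1 + ψ (B z (x0 + (φ t : V))) j)) ∈ Mm d s.card := by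
    intro z s
    induction s using Finset.induction_on with
    | empty =>
      refine Submodule.subset_span ⟨∅, le_rfl, ?_⟩
      funext t
      unfold mon
      rw [Finset.prod_empty, Finset.prod_empty]
    | insert j s hj ih =>
      rw [Finset.card_insert_of_notMem hj]
      let ℓ : (Fin d → ZMod 2) →ₗ[ZMod 2] ZMod 2 :=
        (LinearMap.proj j) ∘ₗ ψ.toLinearMap ∘ₗ (B z) ∘ₗ T.subtype ∘ₗ φ.toLinearMap
      have h1 := hPLS d s.card _ ih ℓ (1 + ψ (B z x0) j)
      have h2 : (fun t : Fin d → ZMod 2 => ∏ i ∈ insert j s, (1 + ψ (B z (x0 + (φ t : V))) i)) =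
          fun t => (1 + ψ (B z x0) j + ℓ t) * ∏ i ∈ s, (1 + ψ (B z (x0 + (φ t : V))) i) := by
        funext t
        rw [Finset.prod_insert hj]
        congr 1
        have h3 : ℓ t = ψ (B z (φ t : V)) j := rfl
        rw [h3, map_add, map_add, Pi.add_apply, add_assoc]
      rw [h2]
      exact h1
  have : Finite I := Set.Finite.to_subtype (Set.toFinite I)
  have : Fintype I := Fintype.ofFinite I
  have hback : ∀ z : I, x0 + (φ (φ.symm ⟨(z : V) + x0, hI z z.2⟩) : V) = z := by
    intro z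
    rw [LinearEquiv.apply_symm_apply]
    change x0 + ((z : V) + x0) = z
    calc x0 + ((z : V) + x0) = (z : V) + (x0 + x0) := by abel
      _ = z := by rw [SSC_add, add_zero]
  have h1 := hPLI d c I (fun z => φ.symm ⟨(z : V) + x0, hI z z.2⟩)
    (fun z t => ∏ j : Fin c, (1 + ψ (B z (x0 + (φ t : V))) j))
    (by
      intro z
      have h2 := hmem z Finset.univ
      rwa [Finset.card_univ, Fintype.card_fin] at h2)
    (by
      intro z
      change ∏ j : Fin c, (1 + ψ (B z (x0 + (φ (φ.symm ⟨(z : V) + x0, hI z z.2⟩) : V))) j) = 1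
      rw [hback z, hB z z.2, map_zero]
      refine Finset.prod_eq_one fun j _ => ?_
      rw [Pi.zero_apply, add_zero])
    (by
      intro z z' hzz
      change ∏ j : Fin c, (1 + ψ (B z (x0 + (φ (φ.symm ⟨(z' : V) + x0, hI z' z'.2⟩) : V))) j) = 0
      rw [hback z']
      have h2 : B z z' ≠ 0 := hB' z z.2 z' z'.2 fun h => hzz (Subtype.ext h)
      have h3 : ψ (B z z') ≠ 0 := fun h => h2 ((LinearEquiv.map_eq_zero_iff ψ).1 h)
      obtain ⟨j, hj⟩ := Function.ne_iff.1 h3
      refine Finset.prod_eq_zero (Finset.mem_univ j) ?_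
      rw [Pi.zero_apply] at hj
      have h4 : ∀ x : ZMod 2, x ≠ 0 → 1 + x = 0 := by decide
      exact h4 _ hj)
  have h2 : I.ncard = Fintype.card I := by
    rw [← Nat.card_coe_set_eq, Nat.card_eq_fintype_card]
  rw [h2]
  exact h1

end Pool.Agent.GPR
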